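import Pool.Agent.Work.MP_a392d0_lc_helper33.OF1

/-!
# Block OF, part 2: the cyclic order; block OC
-/

set_option linter.unusedSectionVars false

namespace Pool.Agent.Work.MP_a392d0_lc
namespace OF

variable {F : Type} [Fintype F] [DecidableEq F] {m β : ℕ}
variable {κ : ℕ → ℕ} {s w : F → ℕ} {x0 : ℕ} {τ : ℕ → ℕ} {C : ℕ → Finset (Fin (2 * m) ⊕ F)}

theorem Hyp.mono (H : Hyp m β κ s w x0 τ C) {X : ℕ} (hX : x0 ≤ X) :
    Hyp m β κ s w X τ C :=
  ⟨H.hm, H.hβ, H.hκ, fun x hx => H.h1 x (by omega), fun x hx => H.h2 x (by omega),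
    fun x y hx => H.h3 x y (by omega), fun x hx => H.h4 x (by omega),
    fun i x hx => H.h5 i x (by omega)⟩

/-- Two types of distance at most the window in both directions. -/
theorem Hyp.partner (H : Hyp m β κ s w x0 τ C)
    (hX : ∀ k : Fin (2 * m), ∀ x, x0 ≤ x → (Sum.inl k ∈ C x ↔ Dd m k (τ x)))
    {x : ℕ} (hx : x0 ≤ x) (k : Fin (2 * m)) (t' : ℕ) (_hne : t' ≠ τ x)
    (hD : ∀ t, Dd m k t → t = τ x ∨ t = t') :
    ∃ y, x < y ∧ y ≤ x + we (F := F) m w (Sum.inl k) ∧
      x + 2 * m ≤ y + we (F := F) m w (Sum.inl k) ∧ τ y = t' := by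
  have hm := H.hm
  have hwe := we_inl (F := F) (w := w) k
  obtain ⟨y, hy1, hy2, hy3⟩ := H.h5 (Sum.inl k) (x + 1) (by omega)
  have hty : τ y = t' := by
    rcases hD _ ((hX k y (by omega)).1 hy3) with h | h
    · exact absurd h (H.h3 x y hx (by omega) (by omega))
    · exact h
  obtain ⟨z, hz1, hz2, hz3⟩ := H.h5 (Sum.inl k) (y + 1) (by omega)
  have htz : τ z = τ x := by
    rcases hD _ ((hX k z (by omega)).1 hz3) with h | h
    · exact h
    · rw [← hty] at h
      exact absurd h (H.h3 y z (by omega) (by omega) (by omega))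
  refine ⟨y, by omega, by omega, ?_, hty⟩
  by_contra hlt
  exact H.h3 x z hx (by omega) (by omega) htz

/-- Bins at distance `m` have antipodal types. -/
theorem Hyp.antipode (H : Hyp m β κ s w x0 τ C)
    (hX : ∀ k : Fin (2 * m), ∀ x, x0 ≤ x → (Sum.inl k ∈ C x ↔ Dd m k (τ x)))
    {x : ℕ} (hx : x0 ≤ x) : τ (x + m) = if τ x < m then τ x + m else τ x - m := by
  have hm := H.hm
  have ht := H.h1 x hx
  have hkl : (if τ x < m then τ x else τ x - m) < m := by split_ifs <;> omega
  have hk : (if τ x < m then τ x else τ x - m) < 2 * m := by omega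
  obtain ⟨y, h1, h2, h3, h4⟩ := H.partner hX hx ⟨_, hk⟩
    (if τ x < m then τ x + m else τ x - m) (by split_ifs <;> omega) (by
      intro t hD
      unfold Dd at hD
      simp only at hD
      rw [if_pos hkl] at hD
      split_ifs at hD ⊢ <;> omega)
  simp only [we, if_pos hkl] at h2 h3
  have : y = x + m := by omega
  rw [← this]
  exact h4

theorem Hyp.next_of_lt (H : Hyp m β κ s w x0 τ C)
    (hX : ∀ k : Fin (2 * m), ∀ x, x0 ≤ x → (Sum.inl k ∈ C x ↔ Dd m k (τ x)))
    {x : ℕ} (hx : x0 < x) (hlt : τ x < m) :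
    τ (x + 1) = τ x + 1 ∨ τ (x - 1) = τ x + 1 := by
  have hm := H.hm
  obtain ⟨y, h1, h2, h3, h4⟩ := H.partner hX (x := x) (by omega) ⟨τ x + m, by omega⟩
    ((τ x + m + 1) % (2 * m)) (by
      rcases (show τ x + m + 1 < 2 * m ∨ τ x + m + 1 = 2 * m by omega) with h | h
      · rw [Nat.mod_eq_of_lt h]; omega
      · rw [h, Nat.mod_self]; omega) (by
      intro t hD
      unfold Dd at hD
      simp only at hD
      rw [if_neg (by omega)] at hD
      omega)
  have hkl : ¬ (τ x + m < m) := by omega
  simp only [we, if_neg hkl] at h2 h3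
  have ha := H.antipode hX (x := x) (by omega)
  rw [if_pos hlt] at ha
  have hne : y ≠ x + m := by
    intro h
    rw [h, ha] at h4
    rcases (show τ x + m + 1 < 2 * m ∨ τ x + m + 1 = 2 * m by omega) with h | h
    · rw [Nat.mod_eq_of_lt h] at h4; omega
    · rw [h, Nat.mod_self] at h4; omega
  -- from the antipode back
  have back : ∀ z, x0 ≤ z → τ (z + m) = (τ x + m + 1) % (2 * m) → τ z = τ x + 1 := by
    intro z hz hzt
    have hz' := H.antipode hX hz
    have hzl := H.h1 z hz
    rw [hzt] at hz'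
    rcases (show τ x + m + 1 < 2 * m ∨ τ x + m + 1 = 2 * m by omega) with h | h
    · rw [Nat.mod_eq_of_lt h] at hz'
      split_ifs at hz' <;> omega
    · rw [h, Nat.mod_self] at hz'
      split_ifs at hz' <;> omega
  rcases (show y = (x + 1) + m ∨ y = (x - 1) + m by omega) with h | h
  · left; rw [h] at h4; exact back _ (by omega) h4
  · right; rw [h] at h4; exact back _ (by omega) h4

theorem Hyp.next (H : Hyp m β κ s w x0 τ C)
    (hX : ∀ k : Fin (2 * m), ∀ x, x0 ≤ x → (Sum.inl k ∈ C x ↔ Dd m k (τ x)))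
    {x : ℕ} (hx : x0 < x) :
    τ (x + 1) = (τ x + 1) % (2 * m) ∨ τ (x - 1) = (τ x + 1) % (2 * m) := by
  have hm := H.hm
  rcases Nat.lt_or_ge (τ x) m with hlt | hge
  · rw [Nat.mod_eq_of_lt (by omega)]
    exact H.next_of_lt hX hx hlt
  · have ha := H.antipode hX (x := x) (by omega)
    have htx := H.h1 x (by omega)
    rw [if_neg (by omega)] at ha
    have hn := H.next_of_lt hX (x := x + m) (by omega) (by omega)
    rw [ha] at hn
    have back : ∀ z, x0 ≤ z → τ (z + m) = τ x - m + 1 → τ z = (τ x + 1) % (2 * m) := by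
      intro z hz hzt
      have hz' := H.antipode hX hz
      have hzl := H.h1 z hz
      rw [hzt] at hz'
      rcases (show τ x + 1 < 2 * m ∨ τ x + 1 = 2 * m by omega) with h | h
      · rw [Nat.mod_eq_of_lt h]
        split_ifs at hz' <;> omega
      · rw [h, Nat.mod_self]
        split_ifs at hz' <;> omega
    rcases hn with h | h
    · left
      exact back _ (by omega) (by rw [show x + 1 + m = x + m + 1 by omega]; exact h)
    · right
      exact back _ (by omega) (by rw [show x - 1 + m = x + m - 1 by omega]; exact h)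

theorem Hyp.period (H : Hyp m β κ s w x0 τ C) {x : ℕ} (hx : x0 ≤ x) (j : ℕ) :
    τ (x + 2 * m * j) = τ x := by
  induction j with
  | zero => simp
  | succ j ih => rw [mul_add, mul_one, ← add_assoc, H.h2 _ (by omega), ih]

/-- The direction is the same all the time. -/
theorem Hyp.direction (H : Hyp m β κ s w x0 τ C)
    (hX : ∀ k : Fin (2 * m), ∀ x, x0 ≤ x → (Sum.inl k ∈ C x ↔ Dd m k (τ x))) :
    (∀ x, x0 < x → τ (x + 1) = (τ x + 1) % (2 * m)) ∨
    (∀ x, x0 < x → τ (x - 1) = (τ x + 1) % (2 * m)) := by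
  have hm := H.hm
  by_cases hA : ∃ x, x0 < x ∧ τ (x + 1) = (τ x + 1) % (2 * m)
  · left
    obtain ⟨x, hx, hAx⟩ := hA
    have hstep : ∀ y, x0 < y → τ (y + 1) = (τ y + 1) % (2 * m) →
        τ (y + 1 + 1) = (τ (y + 1) + 1) % (2 * m) := by
      intro y hy h
      rcases H.next hX (x := y + 1) (by omega) with h' | h'
      · exact h'
      · exfalso
        rw [Nat.add_sub_cancel, h] at h'
        have hlt := H.h1 y (by omega)
        rcases (show τ y + 1 < 2 * m ∨ τ y + 1 = 2 * m by omega) with h1 | h1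
        · rw [Nat.mod_eq_of_lt h1] at h'
          rcases (show τ y + 1 + 1 < 2 * m ∨ τ y + 1 + 1 = 2 * m by omega) with h2 | h2
          · rw [Nat.mod_eq_of_lt h2] at h'; omega
          · rw [h2, Nat.mod_self] at h'; omega
        · rw [h1, Nat.mod_self, zero_add, Nat.mod_eq_of_lt (by omega)] at h'; omega
    have hall : ∀ d, τ (x + d + 1) = (τ (x + d) + 1) % (2 * m) := by
      intro d
      induction d with
      | zero => exact hAx
      | succ d ih => exact hstep (x + d) (by omega) ih
    intro y hy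
    have h1 := H.period (x := y) (by omega) x
    have h2 := H.period (x := y + 1) (by omega) x
    have hge : x ≤ y + 2 * m * x := by
      have : x ≤ 2 * m * x := Nat.le_mul_of_pos_left _ (by omega)
      omega
    have h3 := hall (y + 2 * m * x - x)
    rw [Nat.add_sub_cancel' hge, h1] at h3
    rw [show y + 2 * m * x + 1 = y + 1 + 2 * m * x by ring, h2] at h3
    exact h3
  · right
    push Not at hA
    intro x hx
    rcases H.next hX hx with h | h
    · exact absurd h (hA x hx)
    · exact h

theorem add_steps {N : ℕ} (_hN : 0 < N) {σ : ℕ → ℕ} (h0 : σ 0 = 0) {Z : ℕ}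
    (hs : ∀ x < Z, σ (x + 1) = (σ x + 1) % N) : ∀ x ≤ Z, σ x = x % N := by
  intro x
  induction x with
  | zero => intro _; rw [h0, Nat.zero_mod]
  | succ x ih =>
    intro hx
    rw [hs x (by omega), ih (by omega), Nat.mod_add_mod]

theorem stmt_OF : Stmt_OF := by
  intro m β F _ _ κ s w x0 τ C hm hβ hκ h1 h2 h3 h4 h5 Z
  have H0 : Hyp m β κ s w x0 τ C := ⟨hm, hβ, hκ, h1, h2, h3, h4, h5⟩
  obtain ⟨X, hX0, hX⟩ := H0.order
  have H := H0.mono hX0
  have hN : 0 < 2 * m := by omega
  rcases H.direction hX with hdir | hdir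
  · -- a place of type zero
    obtain ⟨x1, hx1, hx1'⟩ : ∃ x1, X < x1 ∧ τ x1 = 0 := by
      have hst : ∀ d, τ (X + 1 + d) = (τ (X + 1) + d) % (2 * m) := by
        intro d
        induction d with
        | zero => rw [add_zero, add_zero, Nat.mod_eq_of_lt (H.h1 _ (by omega))]
        | succ d ih =>
          rw [← add_assoc, hdir _ (by omega), ih, Nat.mod_add_mod, add_assoc]
      have hlt := H.h1 (X + 1) (by omega)
      refine ⟨X + 1 + (2 * m - τ (X + 1)), by omega, ?_⟩
      rw [hst, Nat.add_sub_cancel' (by omega), Nat.mod_self]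
    have htau : ∀ x, τ (x1 + x) = x % (2 * m) := by
      intro x
      exact add_steps hN (σ := fun x => τ (x1 + x)) hx1' (Z := x)
        (fun y _ => hdir (x1 + y) (by omega)) x le_rfl
    refine ⟨fun x => flex m (C (x1 + x)), fun x _ => ?_, fun i x _ => ?_⟩
    · show ∑ i ∈ flex m (C (x1 + x)), s i ≤ κ (x % (2 * m))
      rw [← htau x]
      exact H.flex_le (by omega) (fun k => hX k _ (by omega))
    · obtain ⟨y, hy1, hy2, hy3⟩ := H.h5 (Sum.inr i) (x1 + x) (by omega)
      simp only [we] at hy2
      refine ⟨y - x1, by omega, by omega, ?_⟩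
      rw [mem_flex, Nat.add_sub_cancel' (by omega)]
      exact hy3
  · obtain ⟨x1, hx1, hx1'⟩ : ∃ x1, X + Z < x1 ∧ τ x1 = 0 := by
      -- going down from a large place
      have hst : ∀ d ≤ 2 * m, τ (X + Z + 1 + 2 * m - d) =
          (τ (X + Z + 1 + 2 * m) + d) % (2 * m) := by
        intro d
        induction d with
        | zero => intro _; rw [Nat.sub_zero, add_zero, Nat.mod_eq_of_lt (H.h1 _ (by omega))]
        | succ d ih =>
          intro hd
          have := hdir (X + Z + 1 + 2 * m - d) (by omega)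
          rw [ih (by omega), Nat.mod_add_mod, Nat.sub_sub] at this
          rw [this, add_assoc]
      have hlt := H.h1 (X + Z + 1 + 2 * m) (by omega)
      refine ⟨X + Z + 1 + 2 * m - (2 * m - τ (X + Z + 1 + 2 * m)), by omega, ?_⟩
      rw [hst _ (by omega), Nat.add_sub_cancel' (by omega), Nat.mod_self]
    have htau : ∀ x ≤ Z, τ (x1 - x) = x % (2 * m) := by
      refine add_steps hN (σ := fun x => τ (x1 - x)) hx1' (Z := Z) (fun y hy => ?_)
      have := hdir (x1 - y) (by omega)
      rw [Nat.sub_sub] at this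
      exact this
    refine ⟨fun x => flex m (C (x1 - x)), fun x hx => ?_, fun i x hx => ?_⟩
    · show ∑ i ∈ flex m (C (x1 - x)), s i ≤ κ (x % (2 * m))
      rw [← htau x (by omega)]
      exact H.flex_le (by omega) (fun k => hX k _ (by omega))
    · have hw := H.wpos (Sum.inr i)
      simp only [we] at hw
      obtain ⟨y, hy1, hy2, hy3⟩ := H.h5 (Sum.inr i) (x1 + 1 - (x + w i)) (by omega)
      simp only [we] at hy2
      refine ⟨x1 - y, by omega, by omega, ?_⟩
      rw [mem_flex, show x1 - (x1 - y) = y by omega]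
      exact hy3

theorem stmt_OC : Stmt_OC := by
  intro m β F _ _ κ s w C hm hcap hwin
  classical
  refine ⟨fun x => Finset.univ.filter fun i => match i with
    | Sum.inl k => Dd m k (x % (2 * m))
    | Sum.inr i => i ∈ C x, fun x => ?_, ?_⟩
  · rw [sum_split, Kf_eq, add_comm]
    have e1 : flex m (Finset.univ.filter fun i : Fin (2 * m) ⊕ F => match i with
        | Sum.inl k => Dd m k (x % (2 * m))
        | Sum.inr i => i ∈ C x) = C x := by
      ext i
      rw [mem_flex]
      simp
    rw [e1]
    refine add_le_add (hcap x) (le_of_eq ?_)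
    refine Finset.sum_congr rfl fun j hj => ?_
    rw [Finset.mem_range] at hj
    unfold og
    by_cases hd : Dd m j (x % (2 * m))
    · rw [if_pos hd, if_pos ⟨hj, by simpa using hd⟩]
    · rw [if_neg hd, if_neg (fun h => hd (by simpa using h.2))]
  · intro i x
    rcases i with k | i
    · have hr : x % (2 * m) < 2 * m := Nat.mod_lt _ (by omega)
      -- it is enough to find the place by its distance
      suffices h : ∃ d, d < we (F := F) m w (Sum.inl k) ∧
          ∃ t, (x % (2 * m) + d = t ∨ x % (2 * m) + d = t + 2 * m) ∧ t < 2 * m ∧ Dd m k t by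
        obtain ⟨d, hd, t, ht, htl, hD⟩ := h
        refine ⟨x + d, by omega, by omega, ?_⟩
        have e : (x + d) % (2 * m) = t := by
          rw [← Nat.mod_add_mod]
          rcases ht with h | h
          · rw [h, Nat.mod_eq_of_lt htl]
          · rw [h, Nat.add_mod_right, Nat.mod_eq_of_lt htl]
        simp only [Finset.mem_filter, Finset.mem_univ, true_and]
        rw [e]
        exact hD
      set r := x % (2 * m) with hrdef
      have hk2 := k.2
      rcases Nat.lt_or_ge (k : ℕ) m with hk | hk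
      · have hwe : we (F := F) m w (Sum.inl k) = m := by simp only [we, if_pos hk]
        rw [hwe]
        have hD1 : Dd m k (k : ℕ) := by unfold Dd; rw [if_pos hk]; left; rfl
        have hD2 : Dd m k ((k : ℕ) + m) := by unfold Dd; rw [if_pos hk]; right; rfl
        rcases (show r ≤ k ∨ ((k : ℕ) < r ∧ r ≤ k + m) ∨ (k : ℕ) + m < r by omega)
          with h | h | h
        · rcases Nat.lt_or_ge ((k : ℕ) - r) m with h' | h'
          · exact ⟨k - r, h', k, by omega, by omega, hD1⟩
          · omega
        · exact ⟨k + m - r, by omega, k + m, by omega, by omega, hD2⟩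
        · exact ⟨k + 2 * m - r, by omega, k, by omega, by omega, hD1⟩
      · have hwe : we (F := F) m w (Sum.inl k) = m + 1 := by
          simp only [we, if_neg (not_lt.2 hk)]
        rw [hwe]
        have hD1 : Dd m k ((k : ℕ) - m) := by unfold Dd; rw [if_neg (not_lt.2 hk)]; left; rfl
        have hD2 : Dd m k (((k : ℕ) + 1) % (2 * m)) := by
          unfold Dd; rw [if_neg (not_lt.2 hk)]; right; rfl
        rcases (show (k : ℕ) + 1 < 2 * m ∨ (k : ℕ) + 1 = 2 * m by omega) with h0 | h0
        · rw [Nat.mod_eq_of_lt h0] at hD2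
          rcases (show r ≤ (k : ℕ) - m ∨ ((k : ℕ) - m < r ∧ r ≤ k + 1) ∨ (k : ℕ) + 1 < r by omega)
            with h | h | h
          · exact ⟨k - m - r, by omega, k - m, by omega, by omega, hD1⟩
          · exact ⟨k + 1 - r, by omega, k + 1, by omega, by omega, hD2⟩
          · exact ⟨k - m + 2 * m - r, by omega, k - m, by omega, by omega, hD1⟩
        · rw [h0, Nat.mod_self] at hD2
          rcases (show r ≤ (k : ℕ) - m ∨ ((k : ℕ) - m < r) by omega) with h | h
          · exact ⟨k - m - r, by omega, k - m, by omega, by omega, hD1⟩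
          · exact ⟨2 * m - r, by omega, 0, by omega, by omega, hD2⟩
    · obtain ⟨y, hy1, hy2, hy3⟩ := hwin i x
      refine ⟨y, hy1, by simpa only [we] using hy2, ?_⟩
      simp only [Finset.mem_filter, Finset.mem_univ, true_and]
      exact hy3

end OF
end Pool.Agent.Work.MP_a392d0_lc
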