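import Pool.Agent.Work.MP_a392d0_lc.Interface

/-!
# Block FS, part 1: capacities, classes of blocks
-/

namespace Pool.Agent.Work.MP_a392d0_lc
namespace FS

/-- The class of the block `g`. -/
def kc (M g : ℕ) : Option Bool :=
  (role M (g % (4 * M + 5))).map fun r => xor r (decide (g / (4 * M + 5) % 2 = 1))

theorem kap_cell (n : ℕ) (cls : Cl) (g p : ℕ) (hpp : p < 2 * n) :
    kap n cls (g * (2 * n) + p) =
      match role cls.length (g % (4 * cls.length + 5)) with
      | none => 0
      | some r => sb (xor r (decide (g / (4 * cls.length + 5) % 2 = 1))) + 1 +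
        (if g % (4 * cls.length + 5) < 4 * cls.length ∧
          (r, p / 2, decide (p % 2 = 1)) ∈ cls.getD (g % (4 * cls.length + 5) / 4) []
          then 1 else 0) +
        (if g % (4 * cls.length + 5) = 4 * cls.length + 1 ∧ p = 0 then 2 else 0) := by
  have hG : 0 < 2 * n := by omega
  have hx : (g * (2 * n) + p) / (2 * n) = g := by
    rw [mul_comm, Nat.mul_add_div hG, Nat.div_eq_of_lt hpp, add_zero]
  have hy : (g * (2 * n) + p) % (2 * n) = p := by
    rw [mul_comm, Nat.mul_add_mod, Nat.mod_eq_of_lt hpp]
  have h1 : (g * (2 * n) + p) / hp n cls = g / (4 * cls.length + 5) := by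
    unfold hp
    rw [mul_comm (4 * cls.length + 5), ← Nat.div_div_eq_div_mul, hx]
  have h2 : (g * (2 * n) + p) % hp n cls / (2 * n) = g % (4 * cls.length + 5) := by
    unfold hp
    rw [mul_comm (4 * cls.length + 5), Nat.mod_mul_right_div_self, hx]
  have h3 : (g * (2 * n) + p) % hp n cls % (2 * n) = p := by
    unfold hp
    rw [mul_comm (4 * cls.length + 5), Nat.mod_mul_right_mod, hy]
  unfold kap
  rw [h1, h2, h3]
  rfl

variable {n : ℕ} {cls : Cl}

theorem kap_none {g p : ℕ} (hpp : p < 2 * n) (h : kc cls.length g = none) :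
    kap n cls (g * (2 * n) + p) = 0 := by
  rw [kap_cell n cls g p hpp]
  unfold kc at h
  rw [Option.map_eq_none_iff] at h
  rw [h]

theorem kap_some {g p : ℕ} {c : Bool} (hpp : p < 2 * n) (h : kc cls.length g = some c) :
    kap n cls (g * (2 * n) + p) ≤ sb c + 3 := by
  rw [kap_cell n cls g p hpp]
  unfold kc at h
  rw [Option.map_eq_some_iff] at h
  obtain ⟨r, h1, h2⟩ := h
  rw [h1]
  simp only [h2]
  split_ifs <;> omega

theorem kc_add (M h blk d : ℕ) (_hb : blk < 4 * M + 5) (hd : blk + d < 2 * (4 * M + 5)) :
    kc M (h * (4 * M + 5) + blk + d) =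
      if blk + d < 4 * M + 5 then (role M (blk + d)).map (fun r => xor r (decide (h % 2 = 1)))
      else (role M (blk + d - (4 * M + 5))).map (fun r => xor r (decide ((h + 1) % 2 = 1))) := by
  unfold kc
  split_ifs with h1
  · have e1 : (h * (4 * M + 5) + blk + d) % (4 * M + 5) = blk + d := by
      rw [add_assoc, mul_comm, Nat.mul_add_mod, Nat.mod_eq_of_lt h1]
    have e2 : (h * (4 * M + 5) + blk + d) / (4 * M + 5) = h := by
      rw [add_assoc, mul_comm, Nat.mul_add_div (by omega), Nat.div_eq_of_lt h1, add_zero]
    rw [e1, e2]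
  · have e0 : h * (4 * M + 5) + blk + d = (h + 1) * (4 * M + 5) + (blk + d - (4 * M + 5)) := by
      rw [add_mul]; omega
    have h2 : blk + d - (4 * M + 5) < 4 * M + 5 := by omega
    have e1 : (h * (4 * M + 5) + blk + d) % (4 * M + 5) = blk + d - (4 * M + 5) := by
      rw [e0, mul_comm, Nat.mul_add_mod, Nat.mod_eq_of_lt h2]
    have e2 : (h * (4 * M + 5) + blk + d) / (4 * M + 5) = h + 1 := by
      rw [e0, mul_comm, Nat.mul_add_div (by omega), Nat.div_eq_of_lt h2, add_zero]
    rw [e1, e2]

theorem role_some_false {M blk : ℕ} (h : blk < 4 * M + 5) : role M blk = some false ↔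
    (blk % 4 = 0 ∧ blk ≤ 4 * M) ∨ blk = 4 * M + 2 := by
  unfold role
  split_ifs <;> simp <;> omega

theorem role_some_true {M blk : ℕ} (h : blk < 4 * M + 5) : role M blk = some true ↔
    (blk % 4 = 1 ∧ blk ≤ 4 * M + 1) := by
  unfold role
  split_ifs <;> simp <;> omega

theorem role_none {M blk : ℕ} (h : blk < 4 * M + 5) : role M blk = none ↔
    (2 ≤ blk % 4 ∧ blk < 4 * M) ∨ blk = 4 * M + 3 ∨ blk = 4 * M + 4 := by
  unfold role
  split_ifs <;> simp <;> omega

/-- A class block `g ≥ 3` is isolated: the next three or the previous three blocks have not the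
class `c`. -/
theorem isolated {M g : ℕ} (hM : 1 ≤ M) {c : Bool} (h : kc M g = some c) :
    (∀ d, 1 ≤ d → d ≤ 3 → kc M (g + d) ≠ some c) ∨
    (3 ≤ g ∧ ∀ d, 1 ≤ d → d ≤ 3 → kc M (g - d) ≠ some c) := by
  set h0 := g / (4 * M + 5) with hh0
  set blk := g % (4 * M + 5) with hblk
  have hb : blk < 4 * M + 5 := Nat.mod_lt _ (by omega)
  have hg : g = h0 * (4 * M + 5) + blk + 0 := by
    rw [hh0, hblk, add_zero, mul_comm]; exact (Nat.div_add_mod g (4 * M + 5)).symm
  have hk := kc_add M h0 blk 0 hb (by omega)
  rw [← hg, if_pos (by omega), h, add_zero] at hk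
  by_cases h4 : blk = 4 * M
  · right
    refine ⟨by omega, fun d hd1 hd3 => ?_⟩
    have e : g - d = h0 * (4 * M + 5) + (blk - d) + 0 := by omega
    rw [e, kc_add M h0 (blk - d) 0 (by omega) (by omega), if_pos (by omega), hk, add_zero, h4]
    have r0 : role M (4 * M) = some false := (role_some_false (by omega)).2 (by omega)
    rw [r0]
    intro hcon
    rcases hr : role M (4 * M - d) with _ | r
    · rw [hr] at hcon; simp at hcon
    · rw [hr] at hcon
      cases r
      · rw [role_some_false (by omega)] at hr; omega
      · simp at hcon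
  · left
    intro d hd1 hd3
    have e : g + d = h0 * (4 * M + 5) + blk + d := by omega
    rw [e, kc_add M h0 blk d hb (by omega), hk]
    rcases hr : role M blk with _ | r
    · rw [hr] at hk; simp at hk
    · split_ifs with hlt
      · rcases hr' : role M (blk + d) with _ | r'
        · simp
        · cases r <;> cases r' <;>
            first
            | (rw [role_some_false (by omega)] at hr hr'; omega)
            | (rw [role_some_true (by omega)] at hr hr'; omega)
            | simp
      · rcases hr' : role M (blk + d - (4 * M + 5)) with _ | r'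
        · simp
        · have hpar : decide ((h0 + 1) % 2 = 1) = !decide (h0 % 2 = 1) := by
            rcases Nat.mod_two_eq_zero_or_one h0 with h | h
            · have : (h0 + 1) % 2 = 1 := by omega
              simp [h, this]
            · have : (h0 + 1) % 2 = 0 := by omega
              simp [h, this]
          rw [hpar]
          cases r <;> cases r'
          · cases decide (h0 % 2 = 1) <;> simp
          · rw [role_some_false (by omega)] at hr
            rw [role_some_true (by omega)] at hr'
            omega
          · rw [role_some_true (by omega)] at hr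
            rw [role_some_false (by omega)] at hr'
            omega
          · cases decide (h0 % 2 = 1) <;> simp

end FS
end Pool.Agent.Work.MP_a392d0_lc
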