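import Pool.Agent.Work.MP_a392d0_lc_helper33.FS1

/-!
# Block FS, part 2: full blocks and constant contents
-/

namespace Pool.Agent.Work.MP_a392d0_lc
namespace FS

variable {n : ℕ} {C : ℕ → Finset (FI n)}

/-- In block `g` every track item of class `c` is in exactly one cell, given by the bijection
`f`. -/
def Full (C : ℕ → Finset (FI n)) (c : Bool) (g : ℕ) (f : Bool × Fin n → Fin (2 * n)) : Prop :=
  Function.Bijective f ∧ ∀ (t : Bool × Fin n) (p : Fin (2 * n)),
    FI.trk c t.1 t.2 ∈ C (g * (2 * n) + p) ↔ f t = p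

theorem full_of {c : Bool} {g : ℕ}
    (hex : ∀ t : Bool × Fin n, ∃ p : Fin (2 * n), FI.trk c t.1 t.2 ∈ C (g * (2 * n) + p))
    (hun : ∀ (p : Fin (2 * n)) (t t' : Bool × Fin n), FI.trk c t.1 t.2 ∈ C (g * (2 * n) + p) →
      FI.trk c t'.1 t'.2 ∈ C (g * (2 * n) + p) → t = t') :
    ∃ f, Full C c g f := by
  choose f hf using hex
  have hinj : Function.Injective f := by
    intro t t' h
    have h1 := hf t
    rw [h] at h1
    exact hun (f t') t t' h1 (hf t')
  have hcard : Fintype.card (Bool × Fin n) = Fintype.card (Fin (2 * n)) := by simp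
  have hbij : Function.Bijective f :=
    (Fintype.bijective_iff_injective_and_card f).2 ⟨hinj, hcard⟩
  refine ⟨f, hbij, fun t p => ⟨fun h => ?_, fun h => h ▸ hf t⟩⟩
  obtain ⟨t', ht'⟩ := hbij.2 p
  have h1 := hf t'
  rw [ht'] at h1
  rw [hun p t t' h h1]
  exact ht'

/-- The properties of the items of class `c` which are needed, for the blocks `g < B`. -/
structure Good (C : ℕ → Finset (FI n)) (M : ℕ) (c : Bool) (B : ℕ) : Prop where
  h1 : ∀ g < B, ∀ p < 2 * n, ∀ t : Bool × Fin n, FI.trk c t.1 t.2 ∈ C (g * (2 * n) + p) →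
    kc M g = some c
  h2 : ∀ g < B, ∀ p < 2 * n, ∀ t t' : Bool × Fin n, FI.trk c t.1 t.2 ∈ C (g * (2 * n) + p) →
    FI.trk c t'.1 t'.2 ∈ C (g * (2 * n) + p) → t = t'
  h3 : ∀ (t : Bool × Fin n) x, x + 4 * (2 * n) ≤ B * (2 * n) →
    ∃ y, x ≤ y ∧ y < x + 4 * (2 * n) ∧ FI.trk c t.1 t.2 ∈ C y

variable {M B : ℕ} {c : Bool}

/-- Every block of class `c` is full. -/
theorem Good.full (hn : 1 ≤ n) (hM : 1 ≤ M) (hG : Good C M c B) {g : ℕ}
    (hc : kc M g = some c) (hB : g + 4 ≤ B) : ∃ f, Full C c g f := by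
  have hG0 : 0 < 2 * n := by omega
  apply full_of
  · intro t
    -- a window of four blocks which contains only the block `g` of class `c`
    obtain ⟨g0, hg0, hg0', hg0B, hiso⟩ : ∃ g0, g0 ≤ g ∧ g < g0 + 4 ∧ g0 + 4 ≤ B ∧
        ∀ g', g0 ≤ g' → g' < g0 + 4 → kc M g' = some c → g' = g := by
      rcases isolated hM hc with h | ⟨h3, h⟩
      · refine ⟨g, le_refl _, by omega, hB, fun g' h1 h2 h3 => ?_⟩
        by_contra hne
        have := h (g' - g) (by omega) (by omega)
        rw [Nat.add_sub_cancel' h1] at this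
        exact this h3
      · refine ⟨g - 3, by omega, by omega, by omega, fun g' h1 h2 h3 => ?_⟩
        by_contra hne
        have := h (g - g') (by omega) (by omega)
        have e : g - (g - g') = g' := by omega
        rw [e] at this
        exact this h3
    obtain ⟨y, hy1, hy2, hy3⟩ := hG.h3 t (g0 * (2 * n)) (by
      rw [← add_mul]; exact Nat.mul_le_mul_right _ hg0B)
    have hyd : y = y / (2 * n) * (2 * n) + y % (2 * n) := by
      rw [mul_comm]; exact (Nat.div_add_mod y (2 * n)).symm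
    have hym : y % (2 * n) < 2 * n := Nat.mod_lt _ hG0
    have hq1 : g0 ≤ y / (2 * n) := (Nat.le_div_iff_mul_le hG0).2 hy1
    have hq2 : y / (2 * n) < g0 + 4 := (Nat.div_lt_iff_lt_mul hG0).2 (by rw [add_mul]; exact hy2)
    have hk : kc M (y / (2 * n)) = some c := by
      refine hG.h1 (y / (2 * n)) (by omega) (y % (2 * n)) hym t ?_
      rw [← hyd]; exact hy3
    have hq : y / (2 * n) = g := hiso _ hq1 hq2 hk
    refine ⟨⟨y % (2 * n), hym⟩, ?_⟩
    rw [hq] at hyd
    rw [← hyd]
    exact hy3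
  · intro p t t' ht ht'
    exact hG.h2 g (by omega) p p.2 t t' ht ht'

/-- The contents of two blocks of class `c` at distance four agree. -/
theorem Good.step (hn : 1 ≤ n) (hG : Good C M c B) {g : ℕ} {f f' : Bool × Fin n → Fin (2 * n)}
    (hf : Full C c g f) (hf' : Full C c (g + 4) f')
    (hd : ∀ d, 1 ≤ d → d ≤ 3 → kc M (g + d) ≠ some c) (hB : g + 5 ≤ B) : f = f' := by
  have hG0 : 0 < 2 * n := by omega
  have hle : ∀ t, (f' t : ℕ) ≤ (f t : ℕ) := by
    intro t
    obtain ⟨y, hy1, hy2, hy3⟩ := hG.h3 t (g * (2 * n) + f t + 1) (by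
      have h1 := (f t).2
      have h2 : (g + 5) * (2 * n) ≤ B * (2 * n) := Nat.mul_le_mul_right _ hB
      rw [add_mul] at h2
      omega)
    have hyd : y = y / (2 * n) * (2 * n) + y % (2 * n) := by
      rw [mul_comm]; exact (Nat.div_add_mod y (2 * n)).symm
    have hym : y % (2 * n) < 2 * n := Nat.mod_lt _ hG0
    have hq1 : g ≤ y / (2 * n) := (Nat.le_div_iff_mul_le hG0).2 (by omega)
    have hq2 : y / (2 * n) < g + 5 := (Nat.div_lt_iff_lt_mul hG0).2 (by
      have := (f t).2
      rw [add_mul]; omega)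
    have hk : kc M (y / (2 * n)) = some c := by
      refine hG.h1 (y / (2 * n)) (by omega) (y % (2 * n)) hym t ?_
      rw [← hyd]; exact hy3
    have hq : y / (2 * n) = g ∨ y / (2 * n) = g + 4 := by
      by_contra hne
      push Not at hne
      have := hd (y / (2 * n) - g) (by omega) (by omega)
      rw [Nat.add_sub_cancel' hq1] at this
      exact this hk
    rcases hq with hq | hq
    · exfalso
      rw [hq] at hyd
      have h1 : f t = ⟨y % (2 * n), hym⟩ := (hf.2 t ⟨y % (2 * n), hym⟩).1 (by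
        show FI.trk c t.1 t.2 ∈ C (g * (2 * n) + y % (2 * n))
        rw [← hyd]; exact hy3)
      have h2 : (f t : ℕ) = y % (2 * n) := by rw [h1]
      omega
    · rw [hq] at hyd
      have h1 : f' t = ⟨y % (2 * n), hym⟩ := (hf'.2 t ⟨y % (2 * n), hym⟩).1 (by
        show FI.trk c t.1 t.2 ∈ C ((g + 4) * (2 * n) + y % (2 * n))
        rw [← hyd]; exact hy3)
      have h2 : (f' t : ℕ) = y % (2 * n) := by rw [h1]
      rw [h2]
      rw [add_mul] at hyd
      omega
  have hsum : ∑ t, (f' t : ℕ) = ∑ t, (f t : ℕ) := by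
    have e1 : ∑ t, (f' t : ℕ) = ∑ p : Fin (2 * n), (p : ℕ) :=
      hf'.1.sum_comp (fun p : Fin (2 * n) => (p : ℕ))
    have e2 : ∑ t, (f t : ℕ) = ∑ p : Fin (2 * n), (p : ℕ) :=
      hf.1.sum_comp (fun p : Fin (2 * n) => (p : ℕ))
    rw [e1, e2]
  have := (Finset.sum_eq_sum_iff_of_le (fun t _ => hle t)).1 hsum
  funext t
  exact (Fin.ext (this t (Finset.mem_univ t))).symm

/-! ### Capacities -/

section
variable {cls : Cl} {Z : ℕ}

theorem sum_ge_two {s : Finset (FI n)} {a b : FI n} (ha : a ∈ s) (hb : b ∈ s) (hab : a ≠ b) :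
    fs a + fs b ≤ ∑ i ∈ s, fs i := by
  have h : ({a, b} : Finset (FI n)) ⊆ s := by
    intro x hx
    simp only [Finset.mem_insert, Finset.mem_singleton] at hx
    rcases hx with rfl | rfl
    · exact ha
    · exact hb
  have h2 := Finset.sum_le_sum_of_subset (f := fs) h
  rw [Finset.sum_pair hab] at h2
  exact h2

theorem sum_ge_one {s : Finset (FI n)} {a : FI n} (ha : a ∈ s) : fs a ≤ ∑ i ∈ s, fs i :=
  Finset.single_le_sum (f := fs) (fun _ _ => Nat.zero_le _) ha

theorem cell_lt {B g p : ℕ} (hB : B * (2 * n) ≤ Z) (hg : g < B) (hp : p < 2 * n) :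
    g * (2 * n) + p < Z := by
  have h1 : (g + 1) * (2 * n) ≤ B * (2 * n) := Nat.mul_le_mul_right _ hg
  rw [add_mul] at h1
  omega

theorem goodX (hfill : SegFill (kap n cls) fs fw Z C) (hB : B * (2 * n) ≤ Z) :
    Good C cls.length false B := by
  refine ⟨?_, ?_, ?_⟩
  · intro g hg p hp t ht
    have hs := hfill.1 _ (cell_lt hB hg hp)
    have h1 := sum_ge_one ht
    have h2 : 20 ≤ fs (FI.trk false t.1 t.2 : FI n) := by simp [fs, sb]
    rcases hk : kc cls.length g with _ | c
    · rw [kap_none hp hk] at hs; omega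
    · cases c
      · rfl
      · have := kap_some hp hk
        simp only [sb, cond_true] at this
        omega
  · intro g hg p hp t t' ht ht'
    by_contra hne
    have hs := hfill.1 _ (cell_lt hB hg hp)
    have hne' : (FI.trk false t.1 t.2 : FI n) ≠ FI.trk false t'.1 t'.2 := by
      intro h
      simp only [FI.trk.injEq, true_and] at h
      exact hne (Prod.ext h.1 h.2)
    have h1 := sum_ge_two ht ht' hne'
    have h2 : 20 ≤ fs (FI.trk false t.1 t.2 : FI n) := by simp [fs, sb]
    have h3 : 20 ≤ fs (FI.trk false t'.1 t'.2 : FI n) := by simp [fs, sb]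
    rcases hk : kc cls.length g with _ | c
    · rw [kap_none hp hk] at hs; omega
    · have := kap_some hp hk
      cases c <;> simp only [sb, cond_true, cond_false] at this <;> omega
  · intro t x hx
    exact hfill.2 (FI.trk false t.1 t.2) x (le_trans hx hB)

theorem goodY (hn : 1 ≤ n) (hM : 1 ≤ cls.length) (hfill : SegFill (kap n cls) fs fw Z C)
    (hB : (B + 4) * (2 * n) ≤ Z) : Good C cls.length true B := by
  have hX := goodX hfill hB
  have hB' : B * (2 * n) ≤ Z := le_trans (Nat.mul_le_mul_right _ (by omega)) hB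
  refine ⟨?_, ?_, ?_⟩
  · intro g hg p hp t ht
    have hs := hfill.1 _ (cell_lt hB' hg hp)
    have h1 := sum_ge_one ht
    have h2 : 10 ≤ fs (FI.trk true t.1 t.2 : FI n) := by simp [fs, sb]
    rcases hk : kc cls.length g with _ | c
    · rw [kap_none hp hk] at hs; omega
    · cases c
      · exfalso
        obtain ⟨f, hf⟩ := hX.full hn hM hk (by omega)
        obtain ⟨u, hu⟩ := hf.1.2 ⟨p, hp⟩
        have hu' := (hf.2 u ⟨p, hp⟩).2 hu
        have h3 : 20 ≤ fs (FI.trk false u.1 u.2 : FI n) := by simp [fs, sb]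
        have h4 := sum_ge_two ht hu' (by simp)
        have := kap_some hp hk
        simp only [sb, cond_false] at this
        omega
      · rfl
  · intro g hg p hp t t' ht ht'
    by_contra hne
    have hs := hfill.1 _ (cell_lt hB' hg hp)
    have hne' : (FI.trk true t.1 t.2 : FI n) ≠ FI.trk true t'.1 t'.2 := by
      intro h
      simp only [FI.trk.injEq, true_and] at h
      exact hne (Prod.ext h.1 h.2)
    have h1 := sum_ge_two ht ht' hne'
    have h2 : 10 ≤ fs (FI.trk true t.1 t.2 : FI n) := by simp [fs, sb]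
    have h3 : 10 ≤ fs (FI.trk true t'.1 t'.2 : FI n) := by simp [fs, sb]
    rcases hk : kc cls.length g with _ | c
    · rw [kap_none hp hk] at hs; omega
    · cases c
      · obtain ⟨f, hf⟩ := hX.full hn hM hk (by omega)
        obtain ⟨u, hu⟩ := hf.1.2 ⟨p, hp⟩
        have hu' := (hf.2 u ⟨p, hp⟩).2 hu
        have h5 : 20 ≤ fs (FI.trk false u.1 u.2 : FI n) := by simp [fs, sb]
        have h4 := sum_ge_two ht hu' (by simp)
        have := kap_some hp hk
        simp only [sb, cond_false] at this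
        omega
      · have := kap_some hp hk
        simp only [sb, cond_true] at this
        omega
  · intro t x hx
    exact hfill.2 (FI.trk true t.1 t.2) x (le_trans hx hB')

theorem goodC (hn : 1 ≤ n) (hM : 1 ≤ cls.length) (hfill : SegFill (kap n cls) fs fw Z C)
    (hB : (B + 4) * (2 * n) ≤ Z) (c : Bool) : Good C cls.length c B := by
  cases c
  · exact goodX hfill (le_trans (Nat.mul_le_mul_right _ (by omega)) hB)
  · exact goodY hn hM hfill hB

end

end FS
end Pool.Agent.Work.MP_a392d0_lc
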