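import Pool.Agent.Work.MP_a392d0_lc_helper33.FS2

/-!
# Block FS, part 3: the probe and the run
-/

namespace Pool.Agent.Work.MP_a392d0_lc
namespace FS

/-- The parity of the half `h`. -/
def par (h : ℕ) : Bool := decide (h % 2 = 1)

theorem par_succ (h : ℕ) : par (h + 1) = !par h := by
  unfold par
  rcases Nat.mod_two_eq_zero_or_one h with h0 | h0
  · have : (h + 1) % 2 = 1 := by omega
    simp [h0, this]
  · have : (h + 1) % 2 = 0 := by omega
    simp [h0, this]

theorem kc_role {M h blk : ℕ} (hb : blk < 4 * M + 5) :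
    kc M (h * (4 * M + 5) + blk) = (role M blk).map (fun r => xor r (par h)) := by
  have := kc_add M h blk 0 hb (by omega)
  rw [add_zero, if_pos (by omega)] at this
  exact this

theorem kc_role1 {M h j : ℕ} (hj : j ≤ M) : kc M (h * (4 * M + 5) + 4 * j) = some (par h) := by
  rw [kc_role (by omega), (role_some_false (by omega)).2 (by omega)]
  simp

theorem kc_role2 {M h j : ℕ} (hj : j ≤ M) :
    kc M (h * (4 * M + 5) + (4 * j + 1)) = some (par (h + 1)) := by
  rw [kc_role (by omega), (role_some_true (by omega)).2 (by omega), par_succ]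
  simp

theorem kc_none {M h j d : ℕ} (hj : j < M) (h2 : 2 ≤ d) (h3 : d ≤ 3) :
    kc M (h * (4 * M + 5) + (4 * j + d)) = none := by
  rw [kc_role (by omega), (role_none (by omega)).2 (by omega)]
  simp

theorem kc_none' {M h d : ℕ} (h2 : 3 ≤ d) (h3 : d ≤ 4) :
    kc M (h * (4 * M + 5) + (4 * M + d)) = none := by
  rw [kc_role (by omega), (role_none (by omega)).2 (by omega)]
  simp

variable {n : ℕ} {C : ℕ → Finset (FI n)} {cls : Cl} {Z B : ℕ}

/-- The blocks of the first role in half `h` have the same contents. -/
theorem role1_blocks (hn : 1 ≤ n) (hM : 1 ≤ cls.length) (hfill : SegFill (kap n cls) fs fw Z C)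
    (hB : (B + 4) * (2 * n) ≤ Z) {h : ℕ} (hh : (h + 1) * (4 * cls.length + 5) + 4 ≤ B)
    {f : Bool × Fin n → Fin (2 * n)} (hf : Full C (par h) (h * (4 * cls.length + 5)) f) :
    ∀ j ≤ cls.length, Full C (par h) (h * (4 * cls.length + 5) + 4 * j) f := by
  have hG := goodC hn hM hfill hB (par h)
  intro j
  induction j with
  | zero => intro _; simpa using hf
  | succ j ih =>
    intro hj
    have ih' := ih (by omega)
    rw [add_mul] at hh
    obtain ⟨f', hf'⟩ := hG.full hn hM (kc_role1 (h := h) hj) (by omega)
    have e : f = f' := by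
      refine hG.step hn ih' (by
        have : h * (4 * cls.length + 5) + 4 * j + 4 =
          h * (4 * cls.length + 5) + 4 * (j + 1) := by ring
        rw [this]; exact hf') ?_ (by omega)
      intro d hd1 hd3
      rw [add_assoc]
      rcases (show d = 1 ∨ 2 ≤ d by omega) with rfl | hd2
      · rw [kc_role2 (by omega), par_succ]; simp
      · rw [kc_none (by omega) hd2 hd3]; simp
    rw [e]; exact hf'

/-- The blocks of the second role in half `h` have the same contents as the first block of the
next half. -/
theorem role2_blocks (hn : 1 ≤ n) (hM : 1 ≤ cls.length) (hfill : SegFill (kap n cls) fs fw Z C)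
    (hB : (B + 4) * (2 * n) ≤ Z) {h : ℕ} (hh : (h + 1) * (4 * cls.length + 5) + 4 ≤ B)
    {f : Bool × Fin n → Fin (2 * n)}
    (hf : Full C (par (h + 1)) ((h + 1) * (4 * cls.length + 5)) f) :
    ∀ k ≤ cls.length + 1, k = 0 ∨
      Full C (par (h + 1)) (h * (4 * cls.length + 5) + (4 * (cls.length + 1 - k) + 1)) f := by
  have hG := goodC hn hM hfill hB (par (h + 1))
  intro k
  induction k with
  | zero => intro _; left; rfl
  | succ k ih =>
    intro hk
    right
    rw [add_mul] at hh
    set j := cls.length + 1 - (k + 1) with hj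
    have hjM : j ≤ cls.length := by omega
    obtain ⟨f', hf'⟩ := hG.full hn hM (kc_role2 (h := h) hjM) (by omega)
    have hnext : Full C (par (h + 1)) (h * (4 * cls.length + 5) + (4 * j + 1) + 4) f := by
      rcases ih (by omega) with h0 | h0
      · subst h0
        have e : h * (4 * cls.length + 5) + (4 * j + 1) + 4 = (h + 1) * (4 * cls.length + 5) := by
          have : j = cls.length := by omega
          rw [this]; ring
        rw [e]; exact hf
      · have e : h * (4 * cls.length + 5) + (4 * j + 1) + 4 =
            h * (4 * cls.length + 5) + (4 * (cls.length + 1 - k) + 1) := by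
          omega
        rw [e]; exact h0
    have e : f' = f := by
      refine hG.step hn hf' hnext ?_ (by omega)
      intro d hd1 hd3
      rw [add_assoc, add_assoc]
      rcases (show j < cls.length ∨ j = cls.length by omega) with hjl | hjl
      · rcases (show d ≤ 2 ∨ d = 3 by omega) with hd | hd
        · rw [kc_none (d := 1 + d) hjl (by omega) (by omega)]; simp
        · subst hd
          have e : 4 * j + (1 + 3) = 4 * (j + 1) := by ring
          rw [e, kc_role1 (by omega), par_succ]; simp
      · rcases (show d = 1 ∨ 2 ≤ d by omega) with hd | hd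
        · subst hd
          rw [kc_role (by omega), (role_some_false (by omega)).2 (by omega), par_succ]
          simp
        · rw [hjl, kc_none' (by omega) (by omega)]; simp
    rw [← e]; exact hf'

/-- The probe finds, for clause `j` and half `h ≥ 1`, a literal of the clause whose cell has a
small item. -/
theorem probe (hn : 1 ≤ n) (hM : 1 ≤ cls.length) (hfill : SegFill (kap n cls) fs fw Z C)
    (hB : (B + 4) * (2 * n) ≤ Z) {h : ℕ} (h1 : 1 ≤ h)
    (hh : (h + 1) * (4 * cls.length + 5) + 4 ≤ B)
    {f f' : Bool × Fin n → Fin (2 * n)}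
    (hf : Full C (par h) (h * (4 * cls.length + 5)) f)
    (hf' : Full C (par (h + 1)) ((h + 1) * (4 * cls.length + 5)) f') {j : ℕ}
    (hj : j < cls.length) :
    ∃ (r : Bool) (p : Fin (2 * n)) (i : Fin n),
      (r, (p : ℕ) / 2, decide ((p : ℕ) % 2 = 1)) ∈ cls.getD j [] ∧
        (bif r then f' else f) (false, i) = p := by
  have hG0 : 0 < 2 * n := by omega
  set P := 4 * cls.length + 5 with hP
  have hPh : P ≤ h * P := Nat.le_mul_of_pos_left _ h1
  have hh' : h * P + P + 4 ≤ B := by rw [add_mul, one_mul] at hh; exact hh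
  have hr1 := role1_blocks hn hM hfill hB hh hf j (by omega)
  have hr2 : Full C (par (h + 1)) (h * P + (4 * j + 1)) f' := by
    rcases role2_blocks hn hM hfill hB hh hf' (cls.length + 1 - j) (by omega) with h0 | h0
    · omega
    · have : cls.length + 1 - (cls.length + 1 - j) = j := by omega
      rw [this] at h0; exact h0
  -- the window
  obtain ⟨y, hy1, hy2, hy3⟩ := hfill.2 FI.q ((h * P + 4 * j - 2) * (2 * n)) (by
    show _ + 6 * (2 * n) ≤ Z
    rw [← add_mul]
    exact le_trans (Nat.mul_le_mul_right _ (by omega)) hB)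
  change y < _ + 6 * (2 * n) at hy2
  rw [← add_mul] at hy2
  have hyd : y = y / (2 * n) * (2 * n) + y % (2 * n) := by
    rw [mul_comm]; exact (Nat.div_add_mod y (2 * n)).symm
  have hym : y % (2 * n) < 2 * n := Nat.mod_lt _ hG0
  have hq1 : h * P + 4 * j - 2 ≤ y / (2 * n) := (Nat.le_div_iff_mul_le hG0).2 hy1
  have hq2 : y / (2 * n) < h * P + 4 * j - 2 + 6 := (Nat.div_lt_iff_lt_mul hG0).2 hy2
  set g := y / (2 * n) with hg
  set p := y % (2 * n) with hp
  have hyZ : y < Z := by
    rw [hyd]; exact cell_lt (B := B + 4) hB (by omega) hym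
  have hcap := hfill.1 y hyZ
  have hk : g = h * P + 4 * j ∨ g = h * P + (4 * j + 1) := by
    by_contra hne
    push Not at hne
    have hz : kc cls.length g = none := by
      rcases (show g = h * P + (4 * j + 2) ∨ g = h * P + (4 * j + 3) ∨ g + 1 = h * P + 4 * j ∨
        g + 2 = h * P + 4 * j by omega) with e | e | e | e
      · rw [e]; exact kc_none hj (by omega) (by omega)
      · rw [e]; exact kc_none hj (by omega) (by omega)
      · rcases Nat.eq_zero_or_pos j with rfl | hj0
        · have e' : g = (h - 1) * P + (4 * cls.length + 4) := by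
            rw [Nat.sub_mul]; omega
          rw [e']; exact kc_none' (by omega) (by omega)
        · have e' : g = h * P + (4 * (j - 1) + 3) := by omega
          rw [e']; exact kc_none (by omega) (by omega) (by omega)
      · rcases Nat.eq_zero_or_pos j with rfl | hj0
        · have e' : g = (h - 1) * P + (4 * cls.length + 3) := by
            rw [Nat.sub_mul]; omega
          rw [e']; exact kc_none' (by omega) (by omega)
        · have e' : g = h * P + (4 * (j - 1) + 2) := by omega
          rw [e']; exact kc_none (by omega) (by omega) (by omega)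
    have h2 := sum_ge_one hy3
    have h3 : kap n cls y = 0 := by rw [hyd]; exact kap_none hym hz
    have h4 : fs (FI.q : FI n) = 2 := rfl
    rw [h3] at hcap
    rw [h4] at h2
    omega
  -- the two roles
  have key : ∀ (r : Bool) (c : Bool) (F : Bool × Fin n → Fin (2 * n)) (blk : ℕ),
      blk = 4 * j + (bif r then 1 else 0) → g = h * P + blk → c = xor r (par h) →
      Full C c g F → ∃ i : Fin n, F (false, i) = ⟨p, hym⟩ ∧
        (r, p / 2, decide (p % 2 = 1)) ∈ cls.getD j [] := by
    intro r c F blk hblk hgb hc hF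
    have hblt : blk < P := by cases r <;> simp at hblk <;> omega
    obtain ⟨u, hu⟩ := hF.1.2 ⟨p, hym⟩
    have hu' : FI.trk c u.1 u.2 ∈ C y := by
      rw [hyd]; exact (hF.2 u ⟨p, hym⟩).2 hu
    have h4 := sum_ge_two hy3 hu' (by simp)
    have hrole : role cls.length blk = some r := by
      cases r
      · rw [role_some_false (by omega)]; simp at hblk; omega
      · rw [role_some_true (by omega)]; simp at hblk; omega
    have hgm : g % (4 * cls.length + 5) = blk := by
      rw [hgb, mul_comm, Nat.mul_add_mod, Nat.mod_eq_of_lt hblt]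
    have hgd : g / (4 * cls.length + 5) = h := by
      rw [hgb, mul_comm, Nat.mul_add_div (by omega), Nat.div_eq_of_lt hblt, add_zero]
    have hb4 : blk / 4 = j := by cases r <;> simp at hblk <;> omega
    have hkap := kap_cell n cls g p hym
    rw [← hyd, hgm, hgd, hrole] at hkap
    simp only at hkap
    rw [hb4] at hkap
    have hcc : xor r (decide (h % 2 = 1)) = c := by rw [hc]; rfl
    rw [hcc, if_neg (c := blk = 4 * cls.length + 1 ∧ p = 0) (by
      cases r <;> simp at hblk <;> omega)] at hkap
    rw [hkap] at hcap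
    have hfq : fs (FI.q : FI n) = 2 := rfl
    have hft : fs (FI.trk c u.1 u.2 : FI n) = sb c + bif u.1 then 1 else 0 := rfl
    rw [hfq, hft] at h4
    split_ifs at hcap with hlit
    · refine ⟨u.2, ?_, hlit.2⟩
      have hu1 : u.1 = false := by
        cases hb : u.1
        · rfl
        · rw [hb] at h4; simp only [cond_true] at h4; omega
      rw [← hu, ← hu1]
    · exfalso; omega
  rcases hk with hk | hk
  · have hF : Full C (par h) g f := by rw [hk]; exact hr1
    obtain ⟨i, hi1, hi2⟩ := key false (par h) f (4 * j) (by simp) hk (by simp) hF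
    exact ⟨false, ⟨p, hym⟩, i, hi2, hi1⟩
  · have hF : Full C (par (h + 1)) g f' := by rw [hk]; exact hr2
    obtain ⟨i, hi1, hi2⟩ := key true (par (h + 1)) f' (4 * j + 1) (by simp) hk
      (by rw [par_succ]; simp) hF
    exact ⟨true, ⟨p, hym⟩, i, hi2, hi1⟩

/-- If each pair of cells has a small item then it has exactly one. -/
theorem small_unique {f : Bool × Fin n → Fin (2 * n)}
    (hs : ∀ i : Fin n, ∃ i' : Fin n, (f (false, i') : ℕ) / 2 = i) {a b : Fin n}
    (h : (f (false, a) : ℕ) / 2 = (f (false, b) : ℕ) / 2) : a = b := by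
  have hlt : ∀ i : Fin n, (f (false, i) : ℕ) / 2 < n := fun i => by
    have := (f (false, i)).2; omega
  let g : Fin n → Fin n := fun i => ⟨(f (false, i) : ℕ) / 2, hlt i⟩
  have hsurj : Function.Surjective g := by
    intro i
    obtain ⟨i', hi'⟩ := hs i
    exact ⟨i', Fin.ext hi'⟩
  have hinj := Finite.injective_iff_surjective.2 hsurj
  exact hinj (Fin.ext h)

/-- The value read off from the contents `f`. -/
noncomputable def val (f : Bool × Fin n → Fin (2 * n)) (i : ℕ) : Bool :=
  @decide (∃ i' : Fin n, (f (false, i') : ℕ) = 2 * i + 1) (Classical.dec _)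

theorem val_eq {f : Bool × Fin n → Fin (2 * n)}
    (hs : ∀ i : Fin n, ∃ i' : Fin n, (f (false, i') : ℕ) / 2 = i) {a : Fin n} :
    val f ((f (false, a) : ℕ) / 2) = decide ((f (false, a) : ℕ) % 2 = 1) := by
  unfold val
  rw [Bool.eq_iff_iff]
  simp only [decide_eq_true_eq]
  constructor
  · rintro ⟨i', hi'⟩
    have : i' = a := small_unique hs (by omega)
    subst this
    omega
  · intro h
    exact ⟨a, by omega⟩

theorem stmt_FS : Stmt_FS := by
  intro n cls hn hbdd htaut r Z C hZ hfill
  have hM : 1 ≤ cls.length := by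
    have := htaut 0 (by omega)
    exact List.length_pos_of_mem this
  set P := 4 * cls.length + 5 with hP
  -- number of blocks
  set B := (r + 3) * P - 4 with hBdef
  have hB4 : B + 4 = (r + 3) * P := by
    have : P ≤ (r + 3) * P := Nat.le_mul_of_pos_left _ (by omega)
    omega
  have hB : (B + 4) * (2 * n) ≤ Z := by
    rw [hB4, mul_assoc]; exact hZ
  have hrange : ∀ h, h ≤ r + 1 → (h + 1) * P + 4 ≤ B := by
    intro h hh
    have : (h + 2) * P ≤ (r + 3) * P := Nat.mul_le_mul_right _ (by omega)
    have e : (h + 2) * P = (h + 1) * P + P := by ring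
    omega
  have hfull : ∀ h, h ≤ r + 2 → ∃ f, Full C (par h) (h * P) f := by
    intro h hh
    have hk : kc cls.length (h * P) = some (par h) := by
      have := kc_role1 (M := cls.length) (h := h) (j := 0) (by omega)
      simpa using this
    refine (goodC hn hM hfill hB (par h)).full hn hM hk ?_
    have : (h + 1) * P ≤ (r + 3) * P := Nat.mul_le_mul_right _ (by omega)
    have e : (h + 1) * P = h * P + P := by ring
    omega
  have : Nonempty (Fin (2 * n)) := ⟨⟨0, by omega⟩⟩
  choose! f hf using hfull
  have hsmall : ∀ h, 1 ≤ h → h ≤ r + 1 → ∀ i : Fin n, ∃ i' : Fin n,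
      (f h (false, i') : ℕ) / 2 = i := by
    intro h h1 h2 i
    obtain ⟨j, hj, hje⟩ := List.getElem_of_mem (htaut i i.2)
    obtain ⟨rr, p, i', hmem, hfi⟩ := probe hn hM hfill hB h1 (hrange h h2) (hf h (by omega))
      (hf (h + 1) (by omega)) hj
    rw [List.getD_eq_getElem _ _ hj, hje] at hmem
    have hr : rr = false ∧ (p : ℕ) / 2 = i := by
      rcases List.mem_cons.1 hmem with h | h
      · simp only [Prod.mk.injEq] at h
        exact ⟨h.1, h.2.1⟩
      · rw [List.mem_singleton] at h
        simp only [Prod.mk.injEq] at h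
        exact ⟨h.1, h.2.1⟩
    rw [hr.1, cond_false] at hfi
    exact ⟨i', by rw [hfi]; exact hr.2⟩
  refine ⟨fun h => val (f (h + 1)), fun h hh => ?_⟩
  intro c hc
  obtain ⟨j, hj, hje⟩ := List.getElem_of_mem hc
  obtain ⟨rr, p, i', hmem, hfi⟩ := probe hn hM hfill hB (h := h + 1) (by omega)
    (hrange _ (by omega)) (hf _ (by omega)) (hf (h + 1 + 1) (by omega)) hj
  rw [List.getD_eq_getElem _ _ hj, hje] at hmem
  refine ⟨_, hmem, ?_⟩
  unfold LitOK
  cases rr
  · simp only [cond_false] at hfi ⊢
    rw [← hfi]
    exact val_eq (hsmall (h + 1) (by omega) (by omega))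
  · simp only [cond_true] at hfi ⊢
    rw [← hfi]
    exact val_eq (hsmall (h + 1 + 1) (by omega) (by omega))

end FS
end Pool.Agent.Work.MP_a392d0_lc
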