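import Pool.Agent.Work.MP_a392d0_lc.Interface

/-!
# Block OF, part 1: the order items are exactly where they are expected
-/

namespace Pool.Agent.Work.MP_a392d0_lc
namespace OF

theorem low_sum {β κ : ℕ} (hβ : 2 ≤ β) (hκ : κ < β) (k : ℕ) :
    κ + ∑ j ∈ Finset.range k, β ^ (j + 1) < β ^ (k + 1) := by
  induction k with
  | zero => simpa using hκ
  | succ k ih =>
    rw [Finset.sum_range_succ, ← add_assoc]
    calc _ < β ^ (k + 1) + β ^ (k + 1) := by omega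
      _ = β ^ (k + 1) * 2 := by ring
      _ ≤ β ^ (k + 1) * β := Nat.mul_le_mul_left _ hβ
      _ = β ^ (k + 1 + 1) := by ring

variable {F : Type} [Fintype F] [DecidableEq F] {m β : ℕ}

/-- The flexible items in a set of items. -/
def flex (m : ℕ) (C : Finset (Fin (2 * m) ⊕ F)) : Finset F :=
  Finset.univ.filter fun i => Sum.inr i ∈ C

theorem mem_flex {C : Finset (Fin (2 * m) ⊕ F)} {i : F} : i ∈ flex m C ↔ Sum.inr i ∈ C := by
  simp [flex]

/-- Size of the order item `j`, if it is in `C`. -/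
def og (m β : ℕ) (C : Finset (Fin (2 * m) ⊕ F)) (j : ℕ) : ℕ :=
  if ∃ h : j < 2 * m, Sum.inl ⟨j, h⟩ ∈ C then β ^ (j + 1) else 0

theorem sum_split (C : Finset (Fin (2 * m) ⊕ F)) (s : F → ℕ) :
    ∑ i ∈ C, se m β s i = ∑ j ∈ Finset.range (2 * m), og m β C j + ∑ i ∈ flex m C, s i := by
  have h1 : ∑ i ∈ C, se m β s i = ∑ i, if i ∈ C then se m β s i else 0 := by
    rw [Finset.sum_ite_mem, Finset.univ_inter]
  rw [h1, Fintype.sum_sum_type, Finset.sum_range]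
  congr 1
  · refine Finset.sum_congr rfl fun k _ => ?_
    unfold og
    by_cases hk : (Sum.inl k : Fin (2 * m) ⊕ F) ∈ C
    · rw [if_pos hk, if_pos ⟨k.2, hk⟩]; rfl
    · rw [if_neg hk, if_neg (fun h => hk h.2)]
  · unfold flex
    rw [Finset.sum_filter]
    rfl

theorem Kf_eq (m β : ℕ) (κ : ℕ → ℕ) (t : ℕ) :
    Kf m β κ t = κ t + ∑ j ∈ Finset.range (2 * m), if Dd m j t then β ^ (j + 1) else 0 := by
  unfold Kf
  rw [Finset.sum_filter]

theorem sum_three (f : ℕ → ℕ) {k N : ℕ} (hk : k < N) :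
    ∑ j ∈ Finset.range N, f j =
      ∑ j ∈ Finset.range k, f j + (f k + ∑ j ∈ Finset.Ico (k + 1) N, f j) := by
  rw [← Finset.sum_eq_sum_Ico_succ_bot hk, Finset.range_eq_Ico, Finset.range_eq_Ico,
    Finset.sum_Ico_consecutive _ (Nat.zero_le k) hk.le]

/-- The hypotheses. -/
structure Hyp (m β : ℕ) (κ : ℕ → ℕ) (s w : F → ℕ) (x0 : ℕ) (τ : ℕ → ℕ)
    (C : ℕ → Finset (Fin (2 * m) ⊕ F)) : Prop where
  hm : 2 ≤ m
  hβ : 2 ≤ β
  hκ : ∀ t < 2 * m, κ t < β
  h1 : ∀ x, x0 ≤ x → τ x < 2 * m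
  h2 : ∀ x, x0 ≤ x → τ (x + 2 * m) = τ x
  h3 : ∀ x y, x0 ≤ x → x < y → y < x + 2 * m → τ y ≠ τ x
  h4 : ∀ x, x0 ≤ x → ∑ i ∈ C x, se m β s i ≤ Kf m β κ (τ x)
  h5 : ∀ i x, x0 ≤ x → ∃ y, x ≤ y ∧ y < x + we m w i ∧ i ∈ C y

variable {κ : ℕ → ℕ} {s w : F → ℕ} {x0 : ℕ} {τ : ℕ → ℕ} {C : ℕ → Finset (Fin (2 * m) ⊕ F)}

theorem Hyp.forward (H : Hyp m β κ s w x0 τ C) {x : ℕ} (hx : x0 ≤ x) {k : Fin (2 * m)}
    (hk : ∀ k' : Fin (2 * m), k < k' → (Sum.inl k' ∈ C x ↔ Dd m k' (τ x)))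
    (hin : Sum.inl k ∈ C x) : Dd m k (τ x) := by
  by_contra hnd
  have h4 := H.h4 x hx
  rw [sum_split, Kf_eq, sum_three _ k.2, sum_three _ k.2] at h4
  have e1 : og m β (C x) (k : ℕ) = β ^ ((k : ℕ) + 1) := by
    unfold og; rw [if_pos ⟨k.2, hin⟩]
  have e2 : (if Dd m (k : ℕ) (τ x) then β ^ ((k : ℕ) + 1) else 0) = 0 := if_neg hnd
  have e3 : ∑ j ∈ Finset.Ico ((k : ℕ) + 1) (2 * m), og m β (C x) j =
      ∑ j ∈ Finset.Ico ((k : ℕ) + 1) (2 * m), if Dd m j (τ x) then β ^ (j + 1) else 0 := by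
    refine Finset.sum_congr rfl fun j hj => ?_
    rw [Finset.mem_Ico] at hj
    have := hk ⟨j, hj.2⟩ (Fin.lt_def.2 (by simpa using hj.1))
    unfold og
    by_cases hd : Dd m j (τ x)
    · rw [if_pos hd, if_pos ⟨hj.2, this.2 hd⟩]
    · rw [if_neg hd, if_neg (fun h => hd (this.1 h.2))]
  have e4 : ∑ j ∈ Finset.range (k : ℕ), (if Dd m j (τ x) then β ^ (j + 1) else 0) ≤
      ∑ j ∈ Finset.range (k : ℕ), β ^ (j + 1) := by
    refine Finset.sum_le_sum fun j _ => ?_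
    split_ifs <;> simp
  have e5 := low_sum H.hβ (H.hκ _ (H.h1 x hx)) (k : ℕ)
  rw [e1, e2, e3] at h4
  omega

theorem Hyp.wpos (H : Hyp m β κ s w x0 τ C) (i : Fin (2 * m) ⊕ F) : 1 ≤ we m w i := by
  obtain ⟨y, h1, h2, _⟩ := H.h5 i x0 le_rfl
  omega

theorem we_inl (k : Fin (2 * m)) : we (F := F) m w (Sum.inl k) ≤ m + 1 := by
  simp only [we]
  split_ifs <;> omega

/-- Two presences around `x`. -/
theorem Hyp.around (H : Hyp m β κ s w x0 τ C) {i : Fin (2 * m) ⊕ F} {x : ℕ}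
    (hx : x0 + we m w i ≤ x) (hn : i ∉ C x) :
    ∃ y1 y2, x ≤ y1 + we m w i ∧ y1 < x ∧ x < y2 ∧ y2 ≤ y1 + we m w i ∧ i ∈ C y1 ∧ i ∈ C y2 := by
  classical
  have hw := H.wpos i
  obtain ⟨y, hy1, hy2, hy3⟩ := H.h5 i (x - we m w i) (by omega)
  -- the last presence before x
  let S := (Finset.range x).filter fun y => i ∈ C y
  have hS : S.Nonempty := ⟨y, by
    simp only [S, Finset.mem_filter, Finset.mem_range]; exact ⟨by omega, hy3⟩⟩
  have hmax := S.max'_mem hS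
  set y1 := S.max' hS with hy1'
  have hm1 : y1 < x ∧ i ∈ C y1 := by
    simpa only [S, Finset.mem_filter, Finset.mem_range] using hmax
  have hle : y ≤ y1 := S.le_max' _ (by
    simp only [S, Finset.mem_filter, Finset.mem_range]; exact ⟨by omega, hy3⟩)
  obtain ⟨y2, hz1, hz2, hz3⟩ := H.h5 i (y1 + 1) (by omega)
  refine ⟨y1, y2, by omega, hm1.1, ?_, by omega, hm1.2, hz3⟩
  by_contra hle2
  rcases Nat.lt_or_ge y2 x with h | h
  · have := S.le_max' y2 (by simp only [S, Finset.mem_filter, Finset.mem_range]; exact ⟨h, hz3⟩)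
    omega
  · have : y2 = x := by omega
    rw [this] at hz3
    exact hn hz3

theorem Dd_two {m k a b c : ℕ} (ha : Dd m k a) (hb : Dd m k b) (hc : Dd m k c) (hab : a ≠ b)
    (hac : a ≠ c) : b = c := by
  unfold Dd at *
  split_ifs at * <;> omega

/-- From some point on the order items are exactly in the bins of their types. -/
theorem Hyp.order (H : Hyp m β κ s w x0 τ C) : ∃ X, x0 ≤ X ∧ ∀ k : Fin (2 * m), ∀ x, X ≤ x →
    (Sum.inl k ∈ C x ↔ Dd m k (τ x)) := by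
  have key : ∀ j ≤ 2 * m, ∃ X, x0 ≤ X ∧ ∀ k : Fin (2 * m), 2 * m - j ≤ k → ∀ x, X ≤ x →
      (Sum.inl k ∈ C x ↔ Dd m k (τ x)) := by
    intro j
    induction j with
    | zero => intro _; exact ⟨x0, le_rfl, fun k hk => by have := k.2; omega⟩
    | succ j ih =>
      intro hj
      obtain ⟨X, hX0, hX⟩ := ih (by omega)
      have hm := H.hm
      refine ⟨X + (m + 1), by omega, fun k hk x hx => ?_⟩
      rcases (show 2 * m - j ≤ (k : ℕ) ∨ 2 * m - (j + 1) = (k : ℕ) by omega) with hk' | hk'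
      · exact hX k hk' x (by omega)
      · have hfw : ∀ x, X ≤ x → Sum.inl k ∈ C x → Dd m k (τ x) := fun x hx hin =>
          H.forward (by omega) (fun k' hk'' => hX k' (by
            have := Fin.lt_def.1 hk''; omega) x hx) hin
        refine ⟨hfw x (by omega), fun hd => ?_⟩
        by_contra hn
        have hwe := we_inl (F := F) (w := w) k
        obtain ⟨y1, y2, a1, a2, a3, a4, a5, a6⟩ := H.around (by omega) hn
        have d1 := hfw y1 (by omega) a5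
        have d2 := hfw y2 (by omega) a6
        have n1 : τ x ≠ τ y1 := H.h3 y1 x (by omega) a2 (by omega)
        have n2 : τ x ≠ τ y2 := (H.h3 x y2 (by omega) a3 (by omega)).symm
        have n3 : τ y2 ≠ τ y1 := H.h3 y1 y2 (by omega) (by omega) (by omega)
        exact n3 (Dd_two hd d1 d2 n1 n2).symm
  obtain ⟨X, hX0, hX⟩ := key (2 * m) le_rfl
  exact ⟨X, hX0, fun k x hx => hX k (by omega) x hx⟩

/-- The flexible items obey the capacity `κ`. -/
theorem Hyp.flex_le (H : Hyp m β κ s w x0 τ C) {x : ℕ} (hx : x0 ≤ x)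
    (hX : ∀ k : Fin (2 * m), (Sum.inl k ∈ C x ↔ Dd m k (τ x))) :
    ∑ i ∈ flex m (C x), s i ≤ κ (τ x) := by
  have h4 := H.h4 x hx
  rw [sum_split, Kf_eq] at h4
  have e3 : ∑ j ∈ Finset.range (2 * m), og m β (C x) j =
      ∑ j ∈ Finset.range (2 * m), if Dd m j (τ x) then β ^ (j + 1) else 0 := by
    refine Finset.sum_congr rfl fun j hj => ?_
    rw [Finset.mem_range] at hj
    have := hX ⟨j, hj⟩
    unfold og
    by_cases hd : Dd m j (τ x)
    · rw [if_pos hd, if_pos ⟨hj, this.2 hd⟩]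
    · rw [if_neg hd, if_neg (fun h => hd (this.1 h.2))]
  rw [e3] at h4
  omega

end OF
end Pool.Agent.Work.MP_a392d0_lc
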